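import Pool.Agent.V11124.SeqCycle
import Pool.Agent.V11124.PathEnum

open SimpleGraph Pool.Agent.V11124.PathEnum

namespace Pool.Agent.Results.MP_df7c80_co.Order15

/-- `G` contains a cycle of length `m`. -/
def HasCycle {V : Type} (G : SimpleGraph V) (m : ℕ) : Prop :=
  ∃ (v : V) (w : G.Walk v v), w.IsCycle ∧ w.length = m

/-- `G` is saturated for the family of cycles `C_m` with `m ∈ I`. -/
def IsSaturated {V : Type} (I : Set ℕ) (G : SimpleGraph V) : Prop :=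
  (∀ m ∈ I, ¬ HasCycle G m) ∧
    ∀ x y : V, x ≠ y → ¬ G.Adj x y → ∃ m ∈ I, HasCycle (G ⊔ SimpleGraph.edge x y) m

/-- the saturation number `sat(n, C_I)` -/
noncomputable def sat (n : ℕ) (I : Set ℕ) : ℕ :=
  sInf {e | ∃ G : SimpleGraph (Fin n), IsSaturated I G ∧ G.edgeSet.ncard = e}

/-- the set `3ℤ₊ + 1 = {4, 7, 10, ...}` -/
def oneModThree : Set ℕ := {m | ∃ i : ℕ, 1 ≤ i ∧ m = 3 * i + 1}

def nbL : List (List ℕ) := [[1, 5, 6], [0, 2, 8], [1, 3, 9], [2, 4, 6, 7, 10], [3, 5, 11], [0, 4, 12], [0, 3, 7, 13], [3, 6, 14], [1], [2], [3], [4], [5], [6], [7]]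

def nb (a : ℕ) : List ℕ := nbL.getD a []

def dat : List (List ℕ) :=
  [[0, 6, 3, 2],
   [0, 1, 2, 3],
   [0, 6, 3, 4],
   [0, 6, 3, 7],
   [0, 5, 4, 3, 2, 1, 8],
   [0, 1, 2, 9],
   [0, 6, 3, 10],
   [0, 5, 4, 11],
   [0, 1, 2, 3, 4, 5, 12],
   [0, 1, 2, 3, 7, 6, 13],
   [0, 6, 7, 14],
   [1, 0, 6, 3],
   [1, 0, 5, 4],
   [1, 0, 6, 7, 3, 4, 5],
   [1, 2, 3, 6],
   [1, 0, 6, 7],
   [1, 0, 5, 4, 3, 2, 9],
   [1, 2, 3, 10],
   [1, 0, 6, 7, 3, 4, 11],
   [1, 0, 5, 12],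
   [1, 0, 6, 13],
   [1, 0, 5, 4, 3, 7, 14],
   [2, 1, 0, 6, 7, 3, 4],
   [2, 1, 0, 5],
   [2, 1, 0, 6],
   [2, 3, 6, 7],
   [2, 3, 4, 5, 0, 1, 8],
   [2, 1, 0, 5, 4, 3, 10],
   [2, 3, 4, 11],
   [2, 3, 7, 6, 0, 5, 12],
   [2, 3, 6, 13],
   [2, 3, 7, 14],
   [3, 6, 0, 5],
   [3, 2, 1, 8],
   [3, 4, 5, 0, 1, 2, 9],
   [3, 2, 1, 0, 5, 4, 11],
   [3, 4, 5, 12],
   [3, 7, 6, 13],
   [3, 6, 7, 14],
   [4, 3, 7, 6],
   [4, 3, 6, 7],
   [4, 3, 7, 6, 0, 1, 8],
   [4, 3, 2, 9],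
   [4, 5, 0, 1, 2, 3, 10],
   [4, 3, 2, 1, 0, 5, 12],
   [4, 3, 6, 13],
   [4, 3, 7, 14],
   [5, 4, 3, 6],
   [5, 0, 6, 7],
   [5, 0, 1, 8],
   [5, 0, 6, 7, 3, 2, 9],
   [5, 4, 3, 10],
   [5, 0, 1, 2, 3, 4, 11],
   [5, 0, 6, 13],
   [5, 0, 1, 2, 3, 7, 14],
   [6, 0, 1, 8],
   [6, 3, 2, 9],
   [6, 7, 3, 10],
   [6, 3, 4, 11],
   [6, 0, 5, 12],
   [6, 3, 7, 14],
   [7, 3, 4, 5, 0, 1, 8],
   [7, 3, 2, 9],
   [7, 6, 3, 10],
   [7, 3, 4, 11],
   [7, 3, 2, 1, 0, 5, 12],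
   [7, 3, 6, 13],
   [8, 1, 2, 9],
   [8, 1, 0, 5, 4, 3, 10],
   [8, 1, 0, 6, 3, 4, 11],
   [8, 1, 2, 3, 4, 5, 12],
   [8, 1, 2, 3, 7, 6, 13],
   [8, 1, 0, 6, 3, 7, 14],
   [9, 2, 3, 10],
   [9, 2, 1, 0, 5, 4, 11],
   [9, 2, 3, 6, 0, 5, 12],
   [9, 2, 1, 0, 5, 4, 3, 7, 6, 13],
   [9, 2, 1, 0, 6, 7, 14],
   [10, 3, 4, 11],
   [10, 3, 2, 1, 0, 5, 12],
   [10, 3, 6, 13],
   [10, 3, 7, 14],
   [11, 4, 5, 12],
   [11, 4, 5, 0, 1, 2, 3, 7, 6, 13],
   [11, 4, 5, 0, 6, 7, 14],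
   [12, 5, 4, 3, 7, 6, 13],
   [12, 5, 0, 6, 3, 7, 14],
   [13, 6, 7, 14]]

def nodupB : List ℕ → Bool
  | [] => true
  | a :: l => l.all (fun b => !(a == b)) && nodupB l

def okPath (x y : ℕ) (L : List ℕ) : Bool :=
  L.head? == some x && (L.getLast? == some y && (L.length % 3 == 1 && (Nat.ble 4 L.length &&
    (L.all (fun u => Nat.blt u 15) && (nodupB L && (L.zip L.tail).all (fun p => (nb p.1).contains p.2))))))

def okAll : Bool := (List.range 15).all (fun x => (List.range 15).all (fun y =>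
  Nat.ble y x || ((nb x).contains y || dat.any (fun L => okPath x y L))))

theorem okAll_true : okAll = true := by decide +kernel

theorem nb_symm : ∀ a b : Fin 15, b.1 ∈ nb a.1 → a.1 ∈ nb b.1 := by decide +kernel

theorem nb_irrefl : ∀ a : Fin 15, a.1 ∉ nb a.1 := by decide +kernel

def G15 : SimpleGraph (Fin 15) where
  Adj a b := b.1 ∈ nb a.1
  symm := ⟨fun a b h => nb_symm a b h⟩
  loopless := ⟨fun a h => nb_irrefl a h⟩

theorem nocyc3 : noCycle nb 15 3 = true := by decide +kernel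
theorem nocyc6 : noCycle nb 15 6 = true := by decide +kernel
theorem nocyc9 : noCycle nb 15 9 = true := by decide +kernel
theorem nocyc12 : noCycle nb 15 12 = true := by decide +kernel

theorem no_bad (m : ℕ) (hm : m ∈ oneModThree) : ¬ HasCycle G15 m := by
  rintro ⟨v, w, hw, hl⟩
  obtain ⟨i, hi, rfl⟩ := hm
  have h15 : w.length ≤ 15 := by
    have h1 := (Pool.Agent.V11124.SeqCycle.cycle_set w hw).1
    have h2 := Set.ncard_le_ncard (Set.subset_univ ({x | x ∈ w.support} : Set (Fin 15))) (Set.toFinite _)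
    rw [Set.ncard_univ, Nat.card_eq_fintype_card, Fintype.card_fin] at h2
    omega
  have hi5 : i ≤ 4 := by omega
  interval_cases i
  · exact no_cycle_of_check G15 nb (fun _ _ h => h) 3 nocyc3 w hw (by omega)
  · exact no_cycle_of_check G15 nb (fun _ _ h => h) 6 nocyc6 w hw (by omega)
  · exact no_cycle_of_check G15 nb (fun _ _ h => h) 9 nocyc9 w hw (by omega)
  · exact no_cycle_of_check G15 nb (fun _ _ h => h) 12 nocyc12 w hw (by omega)

theorem nodup_of_nodupB : ∀ L : List ℕ, nodupB L = true → L.Nodup := by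
  intro L
  induction L with
  | nil => intro _; exact List.nodup_nil
  | cons a l ih =>
    intro h
    rw [nodupB, Bool.and_eq_true, List.all_eq_true] at h
    rw [List.nodup_cons]
    refine ⟨fun hmem => ?_, ih h.2⟩
    have := h.1 a hmem
    simp at this

def toF (k : ℕ) : Fin 15 := if h : k < 15 then ⟨k, h⟩ else 0

theorem toF_val {k : ℕ} (h : k < 15) : (toF k).1 = k := by
  unfold toF; rw [dif_pos h]

theorem cycle_of_path {x y : Fin 15} (hxy : x ≠ y) (L : List ℕ) (h : okPath x.1 y.1 L = true) :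
    ∃ m ∈ oneModThree, HasCycle (G15 ⊔ SimpleGraph.edge x y) m := by
  unfold okPath at h
  simp only [Bool.and_eq_true, beq_iff_eq] at h
  obtain ⟨h1, h2, h3, h4, h5, h6, h7⟩ := h
  rw [List.all_eq_true] at h5 h7
  have h4' : 4 ≤ L.length := by simpa using h4
  have hlt : ∀ j < L.length, L.getD j 0 < 15 := by
    intro j hj
    have := h5 (L.getD j 0) (by rw [List.getD_eq_getElem _ _ hj]; exact List.getElem_mem hj)
    simpa [Nat.blt_eq] using this
  have hnd := nodup_of_nodupB L h6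
  have h0 : toF (L.getD 0 0) = x := by
    rw [List.head?_eq_getElem?] at h1
    have : L.getD 0 0 = x.1 := by
      rw [List.getD_eq_getElem?_getD, h1]; rfl
    rw [this]
    exact Fin.ext (toF_val x.2)
  have hlast : toF (L.getD (L.length - 1) 0) = y := by
    rw [List.getLast?_eq_getElem?] at h2
    have : L.getD (L.length - 1) 0 = y.1 := by
      rw [List.getD_eq_getElem?_getD, h2]; rfl
    rw [this]
    exact Fin.ext (toF_val y.2)
  obtain ⟨v, w, hw, hl⟩ := Pool.Agent.V11124.SeqCycle.exists_cycle_of_seq (G15 ⊔ SimpleGraph.edge x y)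
    (fun i => toF (L.getD i 0)) (L.length - 1) (by omega)
    (by
      intro i hi
      left
      change (toF (L.getD (i + 1) 0)).1 ∈ nb (toF (L.getD i 0)).1
      rw [toF_val (hlt _ (by omega)), toF_val (hlt _ (by omega))]
      have hmem : (L.getD i 0, L.getD (i + 1) 0) ∈ L.zip L.tail := by
        rw [List.mem_iff_getElem]
        have hl : i < (L.zip L.tail).length := by
          rw [List.length_zip, List.length_tail]; omega
        refine ⟨i, hl, ?_⟩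
        rw [List.getElem_zip, List.getElem_tail, List.getD_eq_getElem _ _ (by omega),
          List.getD_eq_getElem _ _ (by omega)]
      have := h7 _ hmem
      simpa using this)
    (by
      right
      rw [h0, hlast, SimpleGraph.edge_adj]
      exact ⟨Or.inr ⟨rfl, rfl⟩, hxy.symm⟩)
    (by
      intro i hi j hj hij
      have h8 : (toF (L.getD i 0)).1 = (toF (L.getD j 0)).1 := congrArg Fin.val hij
      rw [toF_val (hlt _ (by omega)), toF_val (hlt _ (by omega)), List.getD_eq_getElem _ _ (by omega),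
        List.getD_eq_getElem _ _ (by omega)] at h8
      exact (List.Nodup.getElem_inj_iff hnd).1 h8)
  refine ⟨L.length, ⟨L.length / 3, by omega, by omega⟩, v, w, hw, by omega⟩

theorem saturated : IsSaturated oneModThree G15 := by
  refine ⟨no_bad, fun x y hxy hadj => ?_⟩
  have key : ∀ x y : Fin 15, x.1 < y.1 → ¬ G15.Adj x y → ∃ L ∈ dat, okPath x.1 y.1 L = true := by
    intro x y hlt hadj
    have h := okAll_true
    unfold okAll at h
    rw [List.all_eq_true] at h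
    have h1 := h x.1 (List.mem_range.2 x.2)
    rw [List.all_eq_true] at h1
    have h2 := h1 y.1 (List.mem_range.2 y.2)
    simp only [Bool.or_eq_true, List.any_eq_true] at h2
    rcases h2 with h2 | h2 | h2
    · rw [Nat.ble_eq] at h2; omega
    · have h3 : y.1 ∈ nb x.1 := by simpa using h2
      exact absurd h3 hadj
    · exact h2
  rcases lt_or_gt_of_ne (fun h => hxy (Fin.ext h) : x.1 ≠ y.1) with h | h
  · obtain ⟨L, -, hL⟩ := key x y h hadj
    exact cycle_of_path hxy L hL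
  · obtain ⟨L, -, hL⟩ := key y x h (fun h' => hadj h'.symm)
    obtain ⟨m, hm, hc⟩ := cycle_of_path hxy.symm L hL
    rw [SimpleGraph.edge_comm] at hc
    exact ⟨m, hm, hc⟩

theorem edges : G15.edgeSet.ncard ≤ 17 := by
  classical
  have hsub : G15.edgeSet ⊆ (([s(0, 1), s(1, 2), s(2, 3), s(3, 4), s(4, 5), s(5, 0), s(0, 6), s(6, 3), s(6, 7), s(7, 3), s(1, 8), s(2, 9), s(3, 10), s(4, 11), s(5, 12), s(6, 13), s(7, 14)] : List (Sym2 (Fin 15))).toFinset : Set (Sym2 (Fin 15))) := by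
    intro e
    induction e using Sym2.ind with
    | _ a b =>
    intro h
    have h' : b.1 ∈ nb a.1 := h
    have hall : ∀ a b : Fin 15, b.1 ∈ nb a.1 → s(a, b) ∈ ([s(0, 1), s(1, 2), s(2, 3), s(3, 4), s(4, 5), s(5, 0), s(0, 6), s(6, 3), s(6, 7), s(7, 3), s(1, 8), s(2, 9), s(3, 10), s(4, 11), s(5, 12), s(6, 13), s(7, 14)] : List (Sym2 (Fin 15))) := by decide +kernel
    simpa using hall a b h'
  have h1 := Set.ncard_le_ncard hsub (Set.toFinite _)
  rw [Set.ncard_coe_finset] at h1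
  exact h1.trans ((List.toFinset_card_le _).trans (by simp))

/-- `sat(15, C_{3ℤ₊+1}) ≤ 17`, below the conjectured value `18`. -/
theorem result : sat 15 oneModThree ≤ 17 ∧
    ¬ ∀ n : ℕ, 1 ≤ n → (sat n oneModThree : ℤ) = ⌈(5 * (n : ℚ)) / 4 - 3 / 2⌉ := by
  have h1 : sat 15 oneModThree ≤ 17 := by
    have h : sat 15 oneModThree ≤ G15.edgeSet.ncard := Nat.sInf_le ⟨G15, saturated, rfl⟩
    exact h.trans edges
  refine ⟨h1, fun h => ?_⟩
  have h2 := h 15 (by norm_num)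
  have h3 : ⌈(5 * ((15 : ℕ) : ℚ)) / 4 - 3 / 2⌉ = 18 := by
    rw [Int.ceil_eq_iff]
    norm_num
  rw [h3] at h2
  omega

end Pool.Agent.Results.MP_df7c80_co.Order15
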